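import Pool.Agent.helper91.SI.Spec5
import Pool.Agent.helper91.SI.FIN

set_option autoImplicit false

namespace Pool.Agent.helper91.SI

open Pool.Agent.helper20.IG (IsIndepDom IsISet iGraph)

theorem CNA26_conn {V : Type} (G : SimpleGraph V) (s : V) :
    (G.induce {z | G.Reachable s z}).Connected := by
  have key : ∀ z (h : G.Reachable s z),
      (G.induce {z | G.Reachable s z}).Reachable ⟨s, SimpleGraph.Reachable.refl s⟩ ⟨z, h⟩ := by
    intro z h
    have h' : Relation.ReflTransGen G.Adj s z := (SimpleGraph.reachable_iff_reflTransGen s z).1 h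
    induction h' with
    | refl => exact SimpleGraph.Reachable.refl _
    | tail hb hbc ih =>
      rename_i b c
      have hb' : G.Reachable s b := (SimpleGraph.reachable_iff_reflTransGen s b).2 hb
      have h1 := ih hb'
      refine h1.trans (SimpleGraph.Adj.reachable ?_)
      exact hbc
  haveI : Nonempty ({z | G.Reachable s z} : Set V) := ⟨⟨s, SimpleGraph.Reachable.refl s⟩⟩
  refine SimpleGraph.Connected.mk ?_
  rintro ⟨a, ha⟩ ⟨b, hb⟩
  exact (key a ha).symm.trans (key b hb)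

theorem CNA26_tri {V : Type} {G : SimpleGraph V} (K : Set V) (h : NoTri G) :
    NoTri (G.induce K) := fun a b c h1 h2 h3 => h a.1 b.1 c.1 h1 h2 h3

theorem CNA26_c4 {V : Type} {G : SimpleGraph V} (K : Set V) (h : NoC4 G) :
    NoC4 (G.induce K) := fun a b c d h1 h2 h3 h4 h5 h6 =>
  h a.1 b.1 c.1 d.1 h1 h2 h3 h4 (fun q => h5 (Subtype.ext q)) (fun q => h6 (Subtype.ext q))

theorem CNA26_c6 {V : Type} {G : SimpleGraph V} (K : Set V) (h : NoC6 G) :
    NoC6 (G.induce K) := fun a b c d e f hn h1 h2 h3 h4 h5 h6 => by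
  refine h a.1 b.1 c.1 d.1 e.1 f.1 ?_ h1 h2 h3 h4 h5 h6
  have := hn.map (f := Subtype.val) Subtype.val_injective
  simpa using this

theorem CNA26_three {V : Type} {G : SimpleGraph V} (K : Set V) (h : ¬ Three G) :
    ¬ Three (G.induce K) := by
  rintro ⟨x, a, b, c, h1, h2, h3, h4, h5, h6⟩
  exact h ⟨x.1, a.1, b.1, c.1, h1, h2, h3, fun q => h4 (Subtype.ext q),
    fun q => h5 (Subtype.ext q), fun q => h6 (Subtype.ext q)⟩

theorem CNA (hIAD : IAD_stmt) (hEMB : EMB_stmt) (hCLS : CLS_stmt) (hSZN : SZN_stmt) :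
    CNA_stmt := by
  classical
  intro V _ _ G h3 h4 h6 hT e X s v hsl
  have hI4 : NoC4 (iGraph G) := FIN_noC4 _ _ e h4
  have hIT : ¬ Three (iGraph G) := fun h => hT (FIN_three _ _ e h)
  have hclo : Clo G {z | G.Reachable s z} := by
    intro u w huw
    exact ⟨fun h => h.trans huw.reachable, fun h => h.trans huw.symm.reachable⟩
  have hs : s ∈ {z | G.Reachable s z} := SimpleGraph.Reachable.refl s
  have hv : v ∈ {z | G.Reachable s z} := hsl.2.2.2.1.reachable
  have hfin : Finite {S : Finset V // IsISet G S} := inferInstance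
  -- the class of X
  obtain ⟨φ⟩ := hEMB V G {z | G.Reachable s z} ⟨X, hsl.1⟩ hclo
  have hJ4 : NoC4 (iGraph (G.induce {z | G.Reachable s z})) :=
    FIN_noC4 _ _ φ (CNA26_c4 _ hI4)
  have hJT : ¬ Three (iGraph (G.induce {z | G.Reachable s z})) :=
    fun h => CNA26_three _ hIT (FIN_three _ _ φ h)
  have hJe : ∃ A B, (iGraph (G.induce {z | G.Reachable s z})).Adj A B := by
    have hadj : (iGraph G).Adj ⟨X, hsl.1⟩ ⟨insert v (X.erase s), hsl.2.2.2.2⟩ :=
      (hIAD V G _ _).2 ⟨s, v, hsl, rfl⟩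
    have hmem : ∀ z, z ∉ {z | G.Reachable s z} → (z ∈ insert v (X.erase s) ↔ z ∈ X) := by
      intro z hz
      have hzv : z ≠ v := fun q => hz (q ▸ hv)
      have hzs : z ≠ s := fun q => hz (q ▸ hs)
      simp [Finset.mem_insert, Finset.mem_erase, hzv, hzs]
    refine ⟨φ.symm ⟨⟨X, hsl.1⟩, fun z _ => Iff.rfl⟩,
      φ.symm ⟨⟨insert v (X.erase s), hsl.2.2.2.2⟩, hmem⟩, ?_⟩
    exact φ.symm.map_rel_iff.2 hadj
  have hcard := hSZN _ (G.induce {z | G.Reachable s z}) (CNA26_conn G s) (CNA26_tri _ h3)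
    (CNA26_c4 _ h4) (CNA26_c6 _ h6) (CNA26_three _ hT) hJ4 hJT hJe
  -- the class of Y0
  obtain ⟨ψ⟩ := hEMB V G {z | G.Reachable s z} (e.symm s) hclo
  have hsub : {Y | G.Reachable s (e Y)} ⊆
      {Y : {S : Finset V // IsISet G S} | ∀ z, z ∉ {z | G.Reachable s z} →
        (z ∈ Y.1 ↔ z ∈ (e.symm s).1)} := by
    intro Y hY z hz
    have hr : (iGraph G).Reachable (e.symm s) Y := by
      rw [← e.reachable_iff, e.apply_symm_apply]
      exact hY
    exact (hCLS V G {z | G.Reachable s z} X s v h3 hI4 hclo hsl hs _ _ hr z hz).symm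
  have hcardC : Set.ncard {Y | G.Reachable s (e Y)} = Nat.card ({z | G.Reachable s z} : Set V) := by
    rw [← Nat.card_coe_set_eq]
    exact Nat.card_congr (e.toEquiv.subtypeEquiv (fun Y => Iff.rfl))
  have hcardD : Set.ncard {Y : {S : Finset V // IsISet G S} | ∀ z, z ∉ {z | G.Reachable s z} →
        (z ∈ Y.1 ↔ z ∈ (e.symm s).1)} =
      Nat.card {S // IsISet (G.induce {z | G.Reachable s z}) S} := by
    rw [← Nat.card_coe_set_eq]
    exact (Nat.card_congr ψ.toEquiv).symm
  have heq := Set.eq_of_subset_of_ncard_le hsub (by rw [hcardC, hcardD]; exact hcard)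
    (Set.toFinite _)
  rw [← heq] at ψ
  have ψ2 : (iGraph G).induce {Y | G.Reachable s (e Y)} ≃g G.induce {z | G.Reachable s z} :=
    { toEquiv := e.toEquiv.subtypeEquiv (fun Y => Iff.rfl)
      map_rel_iff' := by
        intro a b
        exact e.map_rel_iff }
  exact ⟨ψ.trans ψ2⟩

end Pool.Agent.helper91.SI
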