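import Pool.Agent.helper91.SI.Spec5

set_option autoImplicit false

namespace Pool.Agent.helper91.SI

open Pool.Agent.helper20.IG (IsIndepDom IsISet iGraph)

theorem EXI : EXI_stmt := by
  classical
  intro V _ _ G
  have h1 : ∃ S, IsIndepDom G S := by
    let F : Finset (Finset V) := Finset.univ.filter (fun S => ∀ u ∈ S, ∀ v ∈ S, ¬ G.Adj u v)
    have hF : F.Nonempty := ⟨∅, by simp [F]⟩
    obtain ⟨S, hS, hmax⟩ := Finset.exists_max_image F Finset.card hF
    have hSi : ∀ u ∈ S, ∀ v ∈ S, ¬ G.Adj u v := by simpa [F] using hS
    refine ⟨S, hSi, ?_⟩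
    intro v hv
    by_contra hcon
    push Not at hcon
    have hin : insert v S ∈ F := by
      simp only [F, Finset.mem_filter, Finset.mem_univ, true_and]
      intro a ha b hb hab
      rcases Finset.mem_insert.1 ha with ha' | ha'
      · rcases Finset.mem_insert.1 hb with hb' | hb'
        · rw [ha', hb'] at hab
          exact hab.ne rfl
        · rw [ha'] at hab
          exact hcon b hb' hab.symm
      · rcases Finset.mem_insert.1 hb with hb' | hb'
        · rw [hb'] at hab
          exact hcon a ha' hab
        · exact hSi a ha' b hb' hab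
    have := hmax _ hin
    rw [Finset.card_insert_of_notMem hv] at this
    omega
  let D : Finset (Finset V) := Finset.univ.filter (fun S => IsIndepDom G S)
  have hD : D.Nonempty := by
    obtain ⟨S, hS⟩ := h1
    exact ⟨S, by simp [D, hS]⟩
  obtain ⟨S, hS, hmin⟩ := Finset.exists_min_image D Finset.card hD
  refine ⟨S, by simpa [D] using hS, fun T hT => hmin T (by simp [D, hT])⟩

end Pool.Agent.helper91.SI
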